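import Mathlib
import Pool.Agent.H350R3.GR.Glue
import Pool.Agent.H350R3.GR.Beta
import Pool.Agent.W609.Cone.Exp

set_option autoImplicit false

/-!
# Seshadri constants at groups of points: tools
-/

namespace Pool.Agent.W609.Sesh

open Polynomial Pool.Agent.H932R2 Pool.Agent.H932R3 Pool.Agent.H350R3 Pool.Agent.H350R3.GR

/-- Multiplicity. -/
def MG (a : Fin 2 → ℂ) (F : MvPolynomial (Fin 3) ℂ) (m : ℕ) : Prop :=
  ∀ s ∈ (MvPolynomial.aeval
    ![(MvPolynomial.X 0 : MvPolynomial (Fin 2) ℂ) + MvPolynomial.C (a 0),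
      (MvPolynomial.X 1 : MvPolynomial (Fin 2) ℂ) + MvPolynomial.C (a 1),
      (1 : MvPolynomial (Fin 2) ℂ)] F).support, m ≤ s 0 + s 1

theorem it2_aeval (p : Fin 2 → ℂ) (F : MvPolynomial (Fin 3) ℂ) :
    it2 ℂ (MvPolynomial.aeval
        ![(MvPolynomial.X 0 : MvPolynomial (Fin 2) ℂ) + MvPolynomial.C (p 0),
          (MvPolynomial.X 1 : MvPolynomial (Fin 2) ℂ) + MvPolynomial.C (p 1),
          (1 : MvPolynomial (Fin 2) ℂ)] F) = sh (p 0) (C (p 1)) (deh ℂ F) := by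
  have h2 : ((it2 ℂ : MvPolynomial (Fin 2) ℂ →+* ℂ[X][X])).comp
      ((MvPolynomial.aeval
      ![(MvPolynomial.X 0 : MvPolynomial (Fin 2) ℂ) + MvPolynomial.C (p 0),
        (MvPolynomial.X 1 : MvPolynomial (Fin 2) ℂ) + MvPolynomial.C (p 1),
        (1 : MvPolynomial (Fin 2) ℂ)] : MvPolynomial (Fin 3) ℂ →ₐ[ℂ] MvPolynomial (Fin 2) ℂ) :
          MvPolynomial (Fin 3) ℂ →+* MvPolynomial (Fin 2) ℂ) =
      (sh (p 0) (C (p 1))).comp (deh ℂ : MvPolynomial (Fin 3) ℂ →+* ℂ[X][X]) := by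
    have hC : ∀ a : ℂ, it2 ℂ (MvPolynomial.C a) = C (C a) := fun a => (it2 ℂ).commutes a
    refine MvPolynomial.ringHom_ext (fun c => ?_) fun j => ?_
    · have h5 : deh ℂ (MvPolynomial.C c) = C (C c) := (deh ℂ).commutes c
      simp only [RingHom.comp_apply, RingHom.coe_coe, h5, sh_C, C_comp, MvPolynomial.aeval_C]
      exact hC c
    · fin_cases j
      · show it2 ℂ (MvPolynomial.aeval _ (MvPolynomial.X 0)) = sh (p 0) (C (p 1))
          (deh ℂ (MvPolynomial.X 0))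
        rw [MvPolynomial.aeval_X, deh_X0, sh_C]
        show it2 ℂ (MvPolynomial.X 0 + MvPolynomial.C (p 0)) = _
        rw [map_add, hC]
        simp [it2]
      · show it2 ℂ (MvPolynomial.aeval _ (MvPolynomial.X 1)) = sh (p 0) (C (p 1))
          (deh ℂ (MvPolynomial.X 1))
        rw [MvPolynomial.aeval_X, deh_X1, sh_X]
        show it2 ℂ (MvPolynomial.X 1 + MvPolynomial.C (p 1)) = _
        rw [map_add, hC]
        simp [it2]
      · show it2 ℂ (MvPolynomial.aeval _ (MvPolynomial.X 2)) = sh (p 0) (C (p 1))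
          (deh ℂ (MvPolynomial.X 2))
        rw [MvPolynomial.aeval_X, deh_X2, map_one]
        show it2 ℂ 1 = 1
        rw [map_one]
  exact congrArg (fun φ : MvPolynomial (Fin 3) ℂ →+* ℂ[X][X] => φ F) h2

theorem mg_iff {p : Fin 2 → ℂ} {F : MvPolynomial (Fin 3) ℂ} {m : ℕ} :
    MG p F m ↔ deh ℂ F ∈ cIdeal (fun _ : Fin 1 => p 0) (C (p 1)) m := by
  refine ⟨fun h => mem_of_support h, fun h => ?_⟩
  rw [mem_cIdeal_iff] at h
  intro s hs
  by_contra hcon
  push Not at hcon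
  have h1 := h (s 1) (by omega) (s 0) (by omega)
  rw [← it2_aeval, coeff_it2] at h1
  have h4 : Finsupp.single 0 (s 0) + Finsupp.single 1 (s 1) = s := by
    ext j
    fin_cases j
    · simp
    · simp
  rw [h4] at h1
  exact (MvPolynomial.mem_support_iff.1 hs) h1

/-- Nonnegativity on all curves. -/
def NC {n : ℕ} (c : ℝ) (l : Fin n → ℝ) (p : Fin n → Fin 2 → ℂ) : Prop :=
  ∀ (F : MvPolynomial (Fin 3) ℂ) (e : ℕ) (m : Fin n → ℕ), F ≠ 0 → F.IsHomogeneous e →
    (∀ i, MG (p i) F (m i)) → ∑ i, l i * (m i : ℝ) ≤ c * e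

theorem nf_of_nc {n : ℕ} {c : ℝ} {l : Fin n → ℝ} {p : Fin n → Fin 2 → ℂ} (h : NC c l p) :
    NB.Nf ℂ l c := by
  intro w d hd
  refine ⟨p, emp_of ?_⟩
  intro F hF hF'
  by_contra h0
  have h1 := h F d w h0 hF (fun i => by
    rw [mg_iff]
    unfold ptJ vIdeal at hF'
    rw [Ideal.mem_iInf] at hF'
    exact hF' i)
  linarith

theorem nc_of_nf {n : ℕ} {c : ℝ} {l : Fin n → ℝ} (h : NB.Nf ℂ l c) {p : Fin n → Fin 2 → ℂ}
    (hp : ∀ (d : ℕ) (w : Fin n → ℕ), (∃ P0 : Fin n → Fin 2 → ℂ, NoForm (ptJ P0 w) d) →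
        NoForm (ptJ p w) d) : NC c l p := by
  intro F e m h0 hF hm
  by_contra hcon
  push Not at hcon
  obtain ⟨x, hx⟩ := h m e hcon
  refine h0 (hp e m ⟨x, noForm_of_emp hx⟩ F hF ?_)
  unfold ptJ vIdeal
  rw [Ideal.mem_iInf]
  exact fun i => mg_iff.1 (hm i)

/-- The uniform weights. -/
theorem nf_unif {n : ℕ} (hn : 2 ^ 1000 ≤ n) :
    NB.Nf ℂ (fun _ : Fin n => (1 : ℝ))
      ((1 + Real.exp (-((n : ℝ) ^ (1 / 10 : ℝ)))) * Real.sqrt n) := by
  have hm1 : ∀ k : ℕ, Mult 1 k (List.replicate k 1) := by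
    intro k
    induction k with
    | zero => exact Mult.left 1
    | succ k ih =>
      rw [List.replicate_succ]
      exact Mult.small 1 (k + 1) _ one_pos (by omega) (by rw [Nat.add_sub_cancel]; exact ih)
  have hm : ∀ k : ℕ, Mult k 1 (List.replicate k 1) := by
    intro k
    induction k with
    | zero => exact Mult.right 1
    | succ k ih =>
      rcases Nat.eq_zero_or_pos k with rfl | hk
      · exact hm1 1
      rw [List.replicate_succ]
      exact Mult.big (k + 1) 1 _ one_pos (by omega) (by rw [Nat.add_sub_cancel]; exact ih)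
  have h1 := Cone.Near.euclid n 1 (List.replicate n 1) one_pos (by rw [Nat.mul_one]; exact hn)
    (hm n)
  clear hn
  obtain ⟨_, _, _, _, h2⟩ := h1.props
  rw [Nat.cast_one, div_one, mul_one] at h2
  have hlen : (List.map (fun m : ℕ => (m : ℝ)) (List.replicate n 1)).length = n := by simp
  refine nf_tr (finCongr hlen) (fun i => ?_) h2
  simp

end Pool.Agent.W609.Sesh
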